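import Pool.Agent.H55.QP.Targets
import Pool.Agent.H55.QO.PAD

/-!
# MONO: a fixed list of encodings gives a small exponent for memories and energies chosen after the
formula (MP_0f8dca_lc, helper70)
-/

set_option autoImplicit false

namespace Pool.Agent.H70.QP

open Finset Matrix
open Pool.Agent.H1.LP (Clause viol)
open Pool.Agent.H55.QP
open Pool.Agent.H55
open scoped ComplexOrder

/-- the index set of the sectors -/
abbrev Bl {n : ℕ} (P : QPool n) : Type := Fin P.nb ⊕ (Fin P.nc ⊕ (Fin P.nc ⊕ Unit))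

/-- dimensions of the sectors -/
def ordG {n : ℕ} (P : QPool n) : Bl P → ℕ
  | Sum.inl i => P.ord i
  | Sum.inr _ => 1

open Classical in
/-- the common bound of the energies of a clause -/
noncomputable def sG {n : ℕ} (P : QPool n) (C : Clause n) (x : Fin n → Bool) : ℝ :=
  if (∃ t, P.cl t = C) ∧ ¬ C.Sat x then 1 else 0

/-- the normalisation -/
noncomputable def ZG {n : ℕ} (P : QPool n) : ℝ := P.nb + 3 * P.nc + 1

/-- the weight of the last sector -/
noncomputable def lastG {n : ℕ} (P : QPool n) (x : Fin n → Bool) : ℝ :=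
  1 - (ZG P)⁻¹ * (∑ i, (P.st x i).trace.re + ∑ t, (sG P (P.cl t) x - P.en t x) +
    ∑ t, sG P (P.cl t) x)

/-- the states of the sectors -/
noncomputable def stG {n : ℕ} (P : QPool n) (x : Fin n → Bool) :
    (i : Bl P) → Matrix (Fin (ordG P i)) (Fin (ordG P i)) ℂ
  | Sum.inl i => (((ZG P)⁻¹ : ℝ) : ℂ) • P.st x i
  | Sum.inr (Sum.inl t) => Matrix.of fun _ _ => (((ZG P)⁻¹ * (sG P (P.cl t) x - P.en t x) : ℝ) : ℂ)
  | Sum.inr (Sum.inr (Sum.inl t)) => Matrix.of fun _ _ => (((ZG P)⁻¹ * sG P (P.cl t) x : ℝ) : ℂ)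
  | Sum.inr (Sum.inr (Sum.inr _)) => Matrix.of fun _ _ => ((lastG P x : ℝ) : ℂ)

theorem one_psd (m : ℕ) (hm : m = 1) (a : ℝ) (ha : 0 ≤ a) :
    (Matrix.of (fun _ _ => (a : ℂ)) : Matrix (Fin m) (Fin m) ℂ).PosSemidef := by
  subst hm
  have h1 : (Matrix.of (fun _ _ => (a : ℂ)) : Matrix (Fin 1) (Fin 1) ℂ) =
      Matrix.diagonal (fun _ => (a : ℂ)) := by
    ext i j
    rw [Subsingleton.elim i j]
    simp
  rw [h1]
  refine Matrix.PosSemidef.diagonal (fun _ => ?_)
  show (0 : ℂ) ≤ (a : ℂ)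
  exact_mod_cast ha

theorem one_tr (m : ℕ) (hm : m = 1) (a : ℂ) :
    (Matrix.of (fun _ _ => a) : Matrix (Fin m) (Fin m) ℂ).trace = a := by
  subst hm
  simp [Matrix.trace]

theorem sG_nonneg {n : ℕ} (P : QPool n) (C : Clause n) (x : Fin n → Bool) : 0 ≤ sG P C x := by
  unfold sG
  split_ifs <;> norm_num

theorem sG_le {n : ℕ} (P : QPool n) (C : Clause n) (x : Fin n → Bool) : sG P C x ≤ 1 := by
  unfold sG
  split_ifs <;> norm_num

theorem en_le {n : ℕ} (P : QPool n) (x : Fin n → Bool) (hx : x ∈ P.cell) (t : Fin P.nc) :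
    P.en t x ≤ sG P (P.cl t) x := by
  unfold sG
  split_ifs with h
  · exact (abs_le.mp (P.bdd x hx t)).2
  · apply P.sound x hx t
    by_contra hc
    exact h ⟨⟨t, rfl⟩, hc⟩

theorem ZG_pos {n : ℕ} (P : QPool n) : 0 < ZG P := by
  unfold ZG
  positivity

theorem tr_re {n : ℕ} (P : QPool n) (x : Fin n → Bool) (hx : x ∈ P.cell) (i : Fin P.nb) :
    0 ≤ (P.st x i).trace.re ∧ (P.st x i).trace = (((P.st x i).trace.re : ℝ) : ℂ) := by
  have h := (P.psd x hx i).trace_nonneg
  rw [Complex.le_def] at h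
  refine ⟨h.1, ?_⟩
  apply Complex.ext
  · simp
  · rw [Complex.ofReal_im]
    exact h.2.symm

theorem last_nonneg {n : ℕ} (P : QPool n) (x : Fin n → Bool) (hx : x ∈ P.cell) :
    0 ≤ lastG P x := by
  have h1 : ∑ i, (P.st x i).trace.re ≤ P.nb := by
    refine (sum_le_sum fun i _ => P.sub x hx i).trans ?_
    simp
  have h2 : ∑ t, (sG P (P.cl t) x - P.en t x) ≤ 2 * P.nc := by
    have : ∀ t ∈ (univ : Finset (Fin P.nc)), sG P (P.cl t) x - P.en t x ≤ 2 := by
      intro t _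
      have h3 := sG_le P (P.cl t) x
      have h4 := (abs_le.mp (P.bdd x hx t)).1
      linarith
    refine (sum_le_sum this).trans ?_
    simp [mul_comm]
  have h3 : ∑ t, sG P (P.cl t) x ≤ P.nc := by
    refine (sum_le_sum fun t _ => sG_le P (P.cl t) x).trans ?_
    simp
  have hZ := ZG_pos P
  have h4 : (ZG P)⁻¹ * (∑ i, (P.st x i).trace.re + ∑ t, (sG P (P.cl t) x - P.en t x) +
      ∑ t, sG P (P.cl t) x) ≤ 1 := by
    rw [inv_mul_le_iff₀ hZ]
    unfold ZG
    linarith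
  unfold lastG
  linarith

theorem st_psd {n : ℕ} (P : QPool n) (x : Fin n → Bool) (hx : x ∈ P.cell) (i : Bl P) :
    (stG P x i).PosSemidef := by
  have hZ := ZG_pos P
  rcases i with i | t | t | u
  · show ((((ZG P)⁻¹ : ℝ) : ℂ) • P.st x i).PosSemidef
    apply Matrix.PosSemidef.smul (P.psd x hx i)
    exact_mod_cast (inv_pos.mpr hZ).le
  · apply one_psd _ rfl
    exact mul_nonneg (inv_pos.mpr hZ).le (sub_nonneg.mpr (en_le P x hx t))
  · apply one_psd _ rfl
    exact mul_nonneg (inv_pos.mpr hZ).le (sG_nonneg P _ x)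
  · exact one_psd _ rfl _ (last_nonneg P x hx)

theorem st_tr {n : ℕ} (P : QPool n) (x : Fin n → Bool) (hx : x ∈ P.cell) :
    ∑ i, (stG P x i).trace = 1 := by
  rw [Fintype.sum_sum_type, Fintype.sum_sum_type, Fintype.sum_sum_type]
  have h1 : ∀ i : Fin P.nb, (stG P x (Sum.inl i)).trace =
      (((ZG P)⁻¹ * (P.st x i).trace.re : ℝ) : ℂ) := by
    intro i
    show ((((ZG P)⁻¹ : ℝ) : ℂ) • P.st x i).trace = _
    rw [Matrix.trace_smul, smul_eq_mul, (tr_re P x hx i).2]
    push_cast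
    rfl
  have h2 : ∀ t : Fin P.nc, (stG P x (Sum.inr (Sum.inl t))).trace =
      (((ZG P)⁻¹ * (sG P (P.cl t) x - P.en t x) : ℝ) : ℂ) := fun t => one_tr _ rfl _
  have h3 : ∀ t : Fin P.nc, (stG P x (Sum.inr (Sum.inr (Sum.inl t)))).trace =
      (((ZG P)⁻¹ * sG P (P.cl t) x : ℝ) : ℂ) := fun t => one_tr _ rfl _
  have h4 : ∀ u : Unit, (stG P x (Sum.inr (Sum.inr (Sum.inr u)))).trace =
      ((lastG P x : ℝ) : ℂ) := fun t => one_tr _ rfl _
  have h5 : ∑ _u : Unit, ((lastG P x : ℝ) : ℂ) = ((lastG P x : ℝ) : ℂ) := by simp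
  simp only [h1, h2, h3, h4]
  rw [h5, ← Complex.ofReal_sum, ← Complex.ofReal_sum, ← Complex.ofReal_sum,
    ← Complex.ofReal_add, ← Complex.ofReal_add, ← Complex.ofReal_add, ← mul_sum, ← mul_sum,
    ← mul_sum]
  rw [← Complex.ofReal_one]
  congr 1
  unfold lastG
  ring

/-- the encoding which belongs to a pool with a nonempty cell -/
noncomputable def toE1 {n : ℕ} (P : QPool n) (h : P.cell.Nonempty) : QO.Encoding n where
  cell := P.cell
  nb := Fintype.card (Bl P)
  ord i := ordG P ((Fintype.equivFin (Bl P)).symm i)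
  st x i := stG P x ((Fintype.equivFin (Bl P)).symm i)
  en C x := sG P C x
  ne := h
  psd x hx i := st_psd P x hx _
  tr x hx := by
    have := Equiv.sum_comp (Fintype.equivFin (Bl P)).symm (fun i => (stG P x i).trace)
    rw [this]
    exact st_tr P x hx
  bdd x _ C := by
    rw [abs_le]
    exact ⟨by linarith [sG_nonneg P C x], sG_le P C x⟩
  sound x _ C hC := by
    unfold sG
    rw [if_neg]
    exact fun h => h.2 hC

open Classical in
/-- the encoding which belongs to a pool -/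
noncomputable def toE {n : ℕ} (P : QPool n) : QO.Encoding n :=
  if h : P.cell.Nonempty then toE1 P h else QO.triv n

theorem toE_eq {n : ℕ} (P : QPool n) (h : P.cell.Nonempty) : toE P = toE1 P h := by
  unfold toE
  rw [dif_pos h]

theorem toE1_size {n : ℕ} (P : QPool n) (h : P.cell.Nonempty) :
    (toE1 P h).size = ∑ i, (P.ord i : ℝ) + (P.nc + (P.nc + 1)) := by
  have h1 : (toE1 P h).size = ∑ i : Bl P, (ordG P i : ℝ) :=
    Equiv.sum_comp (Fintype.equivFin (Bl P)).symm (fun i => (ordG P i : ℝ))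
  rw [h1, Fintype.sum_sum_type, Fintype.sum_sum_type, Fintype.sum_sum_type]
  simp [ordG]

theorem toE_size {n : ℕ} (P : QPool n) : (toE P).size ≤ 2 * P.sizeOf univ univ := by
  have h0 : (0 : ℝ) ≤ ∑ i, (P.ord i : ℝ) := sum_nonneg fun _ _ => Nat.cast_nonneg _
  have h1 : (0 : ℝ) ≤ P.nc := Nat.cast_nonneg _
  have h2 : P.sizeOf univ univ = ∑ i, (P.ord i : ℝ) + P.nc + 1 := by
    unfold QPool.sizeOf
    rw [card_univ, Fintype.card_fin]
  rw [h2]
  by_cases h : P.cell.Nonempty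
  · rw [toE_eq P h, toE1_size]
    linarith
  · unfold toE
    rw [dif_neg h, QO.triv_size]
    linarith

open Classical in
/-- the counting identity -/
theorem count_id {n m : ℕ} (P : QPool n) (phi : Fin m → Clause n) (T : Finset (Fin P.nc))
    (w : Fin P.nc → ℝ) (x : Fin n → Bool) :
    ∑ t, (((univ.filter (fun j => phi j = P.cl t)).card : ℝ) -
        ∑ t' ∈ T.filter (fun t' => P.cl t' = P.cl t), w t') /
        ((univ.filter (fun t' => P.cl t' = P.cl t)).card : ℝ) * sG P (P.cl t) x =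
      ∑ j, sG P (phi j) x - ∑ t ∈ T, w t * sG P (P.cl t) x := by
  have h1 : ∑ t, (((univ.filter (fun j => phi j = P.cl t)).card : ℝ) -
        ∑ t' ∈ T.filter (fun t' => P.cl t' = P.cl t), w t') /
        ((univ.filter (fun t' => P.cl t' = P.cl t)).card : ℝ) * sG P (P.cl t) x =
      ∑ C ∈ univ.image P.cl, (((univ.filter (fun j => phi j = C)).card : ℝ) -
        ∑ t' ∈ T.filter (fun t' => P.cl t' = C), w t') * sG P C x := by
    rw [Finset.sum_comp (fun C => (((univ.filter (fun j => phi j = C)).card : ℝ) -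
        ∑ t' ∈ T.filter (fun t' => P.cl t' = C), w t') /
        ((univ.filter (fun t' => P.cl t' = C)).card : ℝ) * sG P C x) P.cl]
    apply sum_congr rfl
    intro C hC
    obtain ⟨t, -, ht⟩ := mem_image.mp hC
    have h2 : ((univ.filter (fun t' => P.cl t' = C)).card : ℝ) ≠ 0 := by
      have : 0 < (univ.filter (fun t' => P.cl t' = C)).card :=
        card_pos.mpr ⟨t, by simp [ht]⟩
      positivity
    rw [nsmul_eq_mul]
    field_simp
  have h3 : ∑ j, sG P (phi j) x =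
      ∑ C ∈ univ.image P.cl, ((univ.filter (fun j => phi j = C)).card : ℝ) * sG P C x := by
    have h4 : ∀ j, sG P (phi j) x =
        ∑ C ∈ univ.image P.cl, if phi j = C then sG P C x else 0 := by
      intro j
      rw [sum_ite_eq]
      split_ifs with h
      · rfl
      · unfold sG
        rw [if_neg]
        rintro ⟨⟨t, ht⟩, -⟩
        exact h (mem_image.mpr ⟨t, mem_univ _, ht⟩)
    rw [sum_congr rfl fun j _ => h4 j, sum_comm]
    apply sum_congr rfl
    intro C _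
    rw [← sum_filter, sum_const, nsmul_eq_mul]
  have h5 : ∑ t ∈ T, w t * sG P (P.cl t) x =
      ∑ C ∈ univ.image P.cl, (∑ t' ∈ T.filter (fun t' => P.cl t' = C), w t') * sG P C x := by
    have h6 : ∀ C ∈ univ.image P.cl, (∑ t' ∈ T.filter (fun t' => P.cl t' = C), w t') * sG P C x =
        ∑ t' ∈ T, if P.cl t' = C then w t' * sG P (P.cl t') x else 0 := by
      intro C _
      rw [← sum_filter, sum_mul]
      apply sum_congr rfl
      intro t' ht'
      rw [(mem_filter.mp ht').2]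
    rw [sum_congr rfl h6, sum_comm]
    apply sum_congr rfl
    intro t _
    rw [sum_ite_eq, if_pos (mem_image.mpr ⟨t, mem_univ _, rfl⟩)]
  rw [h1, h3, h5, ← sum_sub_distrib]
  apply sum_congr rfl
  intro C _
  ring

/-- the observable on a sector -/
noncomputable def HG {n : ℕ} (P : QPool n) (de : ℝ) (I : Finset (Fin P.nb)) (T : Finset (Fin P.nc))
    (H : (i : Fin P.nb) → Matrix (Fin (P.ord i)) (Fin (P.ord i)) ℂ) (w u : Fin P.nc → ℝ) :
    (i : Bl P) → Matrix (Fin (ordG P i)) (Fin (ordG P i)) ℂ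
  | Sum.inl i => (if i ∈ I then ((ZG P : ℝ) : ℂ) • (H i - (de : ℂ) • 1) else 0 :
      Matrix (Fin (P.ord i)) (Fin (P.ord i)) ℂ)
  | Sum.inr (Sum.inl t) => if t ∈ T then Matrix.of fun _ _ => ((ZG P * w t : ℝ) : ℂ) else 0
  | Sum.inr (Sum.inr (Sum.inl t)) => Matrix.of fun _ _ => ((ZG P * u t : ℝ) : ℂ)
  | Sum.inr (Sum.inr (Sum.inr _)) => 0

theorem HG_psd {n : ℕ} (P : QPool n) (de : ℝ) (I : Finset (Fin P.nb)) (T : Finset (Fin P.nc))
    (H : (i : Fin P.nb) → Matrix (Fin (P.ord i)) (Fin (P.ord i)) ℂ) (w u : Fin P.nc → ℝ)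
    (hw : ∀ t ∈ T, 0 ≤ w t) (hu : ∀ t, 0 ≤ u t)
    (hH : ∀ i ∈ I, (H i - (de : ℂ) • (1 : Matrix (Fin (P.ord i)) (Fin (P.ord i)) ℂ)).PosSemidef)
    (i : Bl P) : (HG P de I T H w u i).PosSemidef := by
  have hZ := ZG_pos P
  rcases i with i | t | t | s
  · show (if i ∈ I then ((ZG P : ℝ) : ℂ) • (H i - (de : ℂ) • 1) else 0 :
      Matrix (Fin (P.ord i)) (Fin (P.ord i)) ℂ).PosSemidef
    split_ifs with h
    · apply Matrix.PosSemidef.smul (hH i h)
      exact_mod_cast hZ.le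
    · exact Matrix.PosSemidef.zero
  · show (if t ∈ T then Matrix.of fun _ _ => ((ZG P * w t : ℝ) : ℂ) else 0 :
      Matrix (Fin 1) (Fin 1) ℂ).PosSemidef
    split_ifs with h
    · exact one_psd _ rfl _ (mul_nonneg hZ.le (hw t h))
    · exact Matrix.PosSemidef.zero
  · exact one_psd _ rfl _ (mul_nonneg hZ.le (hu t))
  · exact Matrix.PosSemidef.zero

theorem one_mul_tr (m : ℕ) (hm : m = 1) (a b : ℂ) :
    ((Matrix.of (fun _ _ => a) : Matrix (Fin m) (Fin m) ℂ) * Matrix.of (fun _ _ => b)).trace =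
      a * b := by
  subst hm
  simp [Matrix.trace, Matrix.mul_apply]

theorem HG_tr {n : ℕ} (P : QPool n) (de : ℝ) (I : Finset (Fin P.nb)) (T : Finset (Fin P.nc))
    (H : (i : Fin P.nb) → Matrix (Fin (P.ord i)) (Fin (P.ord i)) ℂ) (w u : Fin P.nc → ℝ)
    (x : Fin n → Bool) :
    ∑ i, (HG P de I T H w u i * stG P x i).trace =
      ∑ i ∈ I, ((H i * P.st x i).trace - (de : ℂ) * (P.st x i).trace) +
        ((∑ t ∈ T, w t * (sG P (P.cl t) x - P.en t x) + ∑ t, u t * sG P (P.cl t) x : ℝ) : ℂ) := by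
  have hZ := ZG_pos P
  have hZ' : ((ZG P : ℝ) : ℂ) ≠ 0 := by exact_mod_cast hZ.ne'
  rw [Fintype.sum_sum_type, Fintype.sum_sum_type, Fintype.sum_sum_type]
  have h1 : ∀ i : Fin P.nb, (HG P de I T H w u (Sum.inl i) * stG P x (Sum.inl i)).trace =
      if i ∈ I then (H i * P.st x i).trace - (de : ℂ) * (P.st x i).trace else 0 := by
    intro i
    show ((if i ∈ I then ((ZG P : ℝ) : ℂ) • (H i - (de : ℂ) • 1) else 0 :
      Matrix (Fin (P.ord i)) (Fin (P.ord i)) ℂ) * ((((ZG P)⁻¹ : ℝ) : ℂ) • P.st x i)).trace = _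
    split_ifs with h
    · rw [Matrix.smul_mul, Matrix.mul_smul, smul_smul, Complex.ofReal_inv, mul_inv_cancel₀ hZ',
        one_smul, Matrix.sub_mul, trace_sub, Matrix.smul_mul, Matrix.one_mul, trace_smul,
        smul_eq_mul]
    · rw [Matrix.zero_mul, trace_zero]
  have h2 : ∀ t : Fin P.nc,
      (HG P de I T H w u (Sum.inr (Sum.inl t)) * stG P x (Sum.inr (Sum.inl t))).trace =
      if t ∈ T then ((w t * (sG P (P.cl t) x - P.en t x) : ℝ) : ℂ) else 0 := by
    intro t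
    show ((if t ∈ T then Matrix.of fun _ _ => ((ZG P * w t : ℝ) : ℂ) else 0 :
      Matrix (Fin 1) (Fin 1) ℂ) *
      Matrix.of fun _ _ => (((ZG P)⁻¹ * (sG P (P.cl t) x - P.en t x) : ℝ) : ℂ)).trace = _
    split_ifs with h
    · rw [one_mul_tr 1 rfl, ← Complex.ofReal_mul]
      congr 1
      field_simp
    · rw [Matrix.zero_mul, trace_zero]
  have h3 : ∀ t : Fin P.nc, (HG P de I T H w u (Sum.inr (Sum.inr (Sum.inl t))) *
      stG P x (Sum.inr (Sum.inr (Sum.inl t)))).trace = ((u t * sG P (P.cl t) x : ℝ) : ℂ) := by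
    intro t
    refine (one_mul_tr 1 rfl _ _).trans ?_
    rw [← Complex.ofReal_mul]
    congr 1
    field_simp
  have h4 : ∀ s : Unit, (HG P de I T H w u (Sum.inr (Sum.inr (Sum.inr s))) *
      stG P x (Sum.inr (Sum.inr (Sum.inr s)))).trace = 0 := by
    intro s
    show ((0 : Matrix (Fin 1) (Fin 1) ℂ) * Matrix.of fun _ _ => ((lastG P x : ℝ) : ℂ)).trace = 0
    rw [Matrix.zero_mul, trace_zero]
  simp only [h1, h2, h3, h4, sum_const_zero, add_zero]
  rw [sum_ite_mem, univ_inter, sum_ite_mem, univ_inter]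
  push_cast
  rfl

theorem certifies_toE1 {n m : ℕ} (P : QPool n) (hne : P.cell.Nonempty) (phi : Fin m → Clause n)
    (I : Finset (Fin P.nb)) (T : Finset (Fin P.nc)) (de er : ℝ)
    (hT : ∀ t ∈ T, ∃ i, phi i = P.cl t) (h : P.Certifies I T de er) :
    (toE1 P hne).Certifies phi de er := by
  classical
  obtain ⟨htr, w, H, hw, hw1, hexp, hpsd⟩ := h
  obtain ⟨u, hu⟩ : ∃ u : Fin P.nc → ℝ, u = fun t =>
      (((univ.filter (fun j => phi j = P.cl t)).card : ℝ) -
        ∑ t' ∈ T.filter (fun t' => P.cl t' = P.cl t), w t') /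
        ((univ.filter (fun t' => P.cl t' = P.cl t)).card : ℝ) := ⟨_, rfl⟩
  have hu0 : ∀ t, 0 ≤ u t := by
    intro t
    rw [hu]
    refine div_nonneg (sub_nonneg.mpr ?_) (Nat.cast_nonneg _)
    rcases (T.filter (fun t' => P.cl t' = P.cl t)).eq_empty_or_nonempty with h | ⟨t', ht'⟩
    · rw [h, sum_empty]
      exact Nat.cast_nonneg _
    · rw [mem_filter] at ht'
      obtain ⟨j, hj⟩ := hT t' ht'.1
      have h1 : (1 : ℝ) ≤ ((univ.filter (fun j => phi j = P.cl t)).card : ℝ) := by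
        have : 0 < (univ.filter (fun j => phi j = P.cl t)).card :=
          card_pos.mpr ⟨j, by simp [hj, ht'.2]⟩
        exact_mod_cast this
      refine le_trans ?_ (hw1.trans h1)
      exact sum_le_sum_of_subset_of_nonneg (filter_subset _ _) (fun t ht _ => hw t ht)
  have hcount : ∀ x, ∑ t, u t * sG P (P.cl t) x =
      ∑ j, sG P (phi j) x - ∑ t ∈ T, w t * sG P (P.cl t) x := by
    intro x
    rw [hu]
    exact count_id P phi T w x
  refine ⟨fun i : Fin (Fintype.card (Bl P)) =>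
    ((de : ℂ) • 1 + HG P de I T H w u ((Fintype.equivFin (Bl P)).symm i) :
      Matrix (Fin (ordG P ((Fintype.equivFin (Bl P)).symm i)))
        (Fin (ordG P ((Fintype.equivFin (Bl P)).symm i))) ℂ), ?_, ?_⟩
  · intro x hx
    have hx' : x ∈ P.cell := hx
    have h1 : ∑ i : Fin (Fintype.card (Bl P)),
        (((de : ℂ) • 1 + HG P de I T H w u ((Fintype.equivFin (Bl P)).symm i)) *
        stG P x ((Fintype.equivFin (Bl P)).symm i)).trace =
        (de : ℂ) + ∑ i, (HG P de I T H w u i * stG P x i).trace := by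
      rw [Equiv.sum_comp (Fintype.equivFin (Bl P)).symm
        (fun i => (((de : ℂ) • 1 + HG P de I T H w u i) * stG P x i).trace)]
      have h2 : ∀ i, (((de : ℂ) • 1 + HG P de I T H w u i) * stG P x i).trace =
          (de : ℂ) * (stG P x i).trace + (HG P de I T H w u i * stG P x i).trace := by
        intro i
        rw [Matrix.add_mul, trace_add, Matrix.smul_mul, Matrix.one_mul, trace_smul, smul_eq_mul]
      rw [sum_congr rfl fun i _ => h2 i, sum_add_distrib, ← mul_sum, st_tr P x hx', mul_one]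
    show ‖∑ i : Fin (Fintype.card (Bl P)),
        (((de : ℂ) • 1 + HG P de I T H w u ((Fintype.equivFin (Bl P)).symm i)) *
        stG P x ((Fintype.equivFin (Bl P)).symm i)).trace - ((∑ j, sG P (phi j) x : ℝ) : ℂ)‖ ≤ er
    rw [h1, HG_tr, hcount x, sum_sub_distrib, ← mul_sum, htr x hx']
    refine le_trans (le_of_eq ?_) (hexp x hx')
    congr 1
    have h3 : ∑ t ∈ T, w t * (sG P (P.cl t) x - P.en t x) =
        ∑ t ∈ T, w t * sG P (P.cl t) x - ∑ t ∈ T, w t * P.en t x := by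
      rw [← sum_sub_distrib]
      exact sum_congr rfl fun t _ => by ring
    rw [h3]
    push_cast
    ring
  · have hkey : ∀ i : Bl P, (((de : ℂ) • 1 + HG P de I T H w u i) - (de : ℂ) •
        (1 : Matrix (Fin (ordG P i)) (Fin (ordG P i)) ℂ)).PosSemidef := by
      intro i
      rw [add_sub_cancel_left]
      exact HG_psd P de I T H w u hw hu0 hpsd _
    exact fun i => hkey ((Fintype.equivFin (Bl P)).symm i)

theorem certifiedBy_toE {n m M : ℕ} (P : Fin M → QPool n) (phi : Fin m → Clause n)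
    (de er S : ℝ) (h : CertifiedBy P phi de er S) :
    QO.CertifiedBy (fun j => toE (P j)) phi de er (∑ j, (toE (P j)).size) := by
  classical
  obtain ⟨J, I, T, h1, h2, h3, -⟩ := h
  refine ⟨J.filter (fun j => (P j).cell.Nonempty), ?_, ?_, ?_, ?_⟩
  · intro j hj j' hj' hne
    rw [mem_filter] at hj hj'
    simp only [toE_eq _ hj.2, toE_eq _ hj'.2]
    exact h1 j hj.1 j' hj'.1 hne
  · intro x
    obtain ⟨j, hj, hx⟩ := h2 x
    refine ⟨j, mem_filter.2 ⟨hj, ⟨x, hx⟩⟩, ?_⟩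
    simp only [toE_eq _ ⟨x, hx⟩]
    exact hx
  · intro j hj
    rw [mem_filter] at hj
    simp only [toE_eq _ hj.2]
    exact certifies_toE1 (P j) hj.2 phi (I j) (T j) de er (h3 j hj.1).1 (h3 j hj.1).2
  · exact sum_le_sum_of_subset_of_nonneg (subset_univ _) fun j _ _ => QO.size_nonneg _

theorem pf_MONO : S_MONO := by
  classical
  intro k ε c hc hH
  obtain ⟨K, γ, hγ, n₀, hn₀⟩ := hH
  obtain ⟨N, hN⟩ := exists_nat_ge (2 / c)
  refine ⟨c / 2, by positivity, K, γ, hγ, n₀ + N, ?_⟩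
  intro n hn
  obtain ⟨Y, m, phi, hY, hphi, hmain⟩ := hn₀ n (by omega)
  refine ⟨Y, m, phi, hY, hphi, ?_⟩
  intro M P hP
  have hn2 : (N : ℝ) ≤ n := by exact_mod_cast (by omega : N ≤ n)
  have hn3 : 1 ≤ c / 2 * n := by
    have h1 : 2 / c ≤ n := hN.trans hn2
    rw [div_le_iff₀ hc] at h1
    linarith
  have hsz : ∑ j, (toE (P j)).size ≤ (2 : ℝ) ^ (c * n) := by
    calc ∑ j, (toE (P j)).size ≤ ∑ j, 2 * (P j).sizeOf univ univ :=
          sum_le_sum fun j _ => toE_size (P j)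
      _ = 2 * ∑ j, (P j).sizeOf univ univ := by rw [mul_sum]
      _ ≤ 2 * (2 : ℝ) ^ (c / 2 * n) := by linarith
      _ = (2 : ℝ) ^ (1 + c / 2 * n) := by
          rw [Real.rpow_add (by norm_num), Real.rpow_one]
      _ ≤ (2 : ℝ) ^ (c * n) := by
          apply Real.rpow_le_rpow_of_exponent_le (by norm_num)
          linarith
  refine le_trans (Nat.cast_le.2 (card_le_card fun a ha => ?_))
    (hmain M (fun j => toE (P j)) hsz)
  rw [mem_filter] at ha ⊢
  refine ⟨ha.1, ?_⟩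
  obtain ⟨J, g1, g2, g3, g4⟩ := certifiedBy_toE P (phi a) _ _ _ ha.2
  exact ⟨J, g1, g2, g3, g4.trans hsz⟩

end Pool.Agent.H70.QP
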